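import Pool.Agent.H612.AffMain

/-!
# MP_ca1301_lc: affine polynomial projection is hard for the existential theory of the reals
-/

set_option autoImplicit false

namespace Pool.Agent.Results.MP_ca1301_lc.AllProjectionVariants

open Pool.Agent.NPC Pool.Agent.NPC.ER Pool.Agent.NPC.H612

/-- The projection problem with a side condition `Q` on the matrix and the vector: `f` and `g` are
correctly described polynomials in `n` variables with integer coefficients and there are a real
`n × n` matrix `A` and a vector `b ∈ ℝⁿ` such that `Q n A b` and `f(x) = g(A x + b)` for all `x`. -/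
def ProjectionWith (Q : ∀ n : ℕ, Matrix (Fin n) (Fin n) ℝ → (Fin n → ℝ) → Prop) (I : AffInst) :
    Prop :=
  I.2.1.Valid I.1 ∧ I.2.2.Valid I.1 ∧
    ∃ (A : Matrix (Fin I.1) (Fin I.1) ℝ) (b : Fin I.1 → ℝ), Q I.1 A b ∧
      ∀ x : Fin I.1 → ℝ, MvPolynomial.aeval x (I.2.1.toPoly I.1) =
        MvPolynomial.aeval (A.mulVec x + b) (I.2.2.toPoly I.1)

/-- The side condition `Q` allows all matrices with nonzero entries in the first two columns only,
together with the vector `0`. -/
def AllowsTwoColumns (Q : ∀ n : ℕ, Matrix (Fin n) (Fin n) ℝ → (Fin n → ℝ) → Prop) : Prop :=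
  ∀ (n : ℕ) (A : Matrix (Fin n) (Fin n) ℝ), (∀ i j : Fin n, 2 ≤ (j : ℕ) → A i j = 0) → Q n A 0

variable {Q : ∀ n : ℕ, Matrix (Fin n) (Fin n) ℝ → (Fin n → ℝ) → Prop}

theorem proj_of_sat (hQ : AllowsTwoColumns Q) {S : List Con} (h : Sat S) :
    ProjectionWith Q (affInst S) := by
  obtain ⟨v, hv⟩ := h
  suffices key : ∃ (A : Matrix (Fin (affN S)) (Fin (affN S)) ℝ) (b : Fin (affN S) → ℝ),
      Q (affN S) A b ∧ ∀ x : Fin (affN S) → ℝ,
      MvPolynomial.aeval x (PolyData.toPoly (affN S) [(1, expv (affN S) [0, 0, 1, 1])]) =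
      MvPolynomial.aeval (A.mulVec x + b) ((collect (affN S) (affRaw S)).toPoly (affN S)) from
    ⟨valid_f, collect_valid _ _, key⟩
  set n := affN S with hn
  have hn2 : 2 ≤ n := affN_ge S
  set w : ℕ → ℝ := fun k => if k = 0 then 1 else if k = 1 then 0 else
    v ((varsOf S).getD (k - 2) 0) with hw
  refine ⟨fun i j => if (j : ℕ) = 0 then w i else if (j : ℕ) = 1 ∧ (i : ℕ) = 1 then 1 else 0,
    0, hQ _ _ ?_, ?_⟩
  · intro i j hj
    show (if (j : ℕ) = 0 then w i else if (j : ℕ) = 1 ∧ (i : ℕ) = 1 then (1 : ℝ) else 0) = 0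
    rw [if_neg (by omega), if_neg (by omega)]
  intro x
  rw [aeval_f hn2, aeval_g]
  set A : Matrix (Fin n) (Fin n) ℝ :=
    fun i j => if (j : ℕ) = 0 then w i else if (j : ℕ) = 1 ∧ (i : ℕ) = 1 then 1 else 0 with hA
  have hAx : ∀ i : Fin n, (A.mulVec x + 0) i = w i * xt x 0 +
      (if (i : ℕ) = 1 then xt x 1 else 0) := by
    intro i
    rw [add_zero]
    simp only [Matrix.mulVec, dotProduct, hA]
    have e0 : xt x 0 = x ⟨0, by omega⟩ := xt_of_lt x _
    have e1 : xt x 1 = x ⟨1, by omega⟩ := xt_of_lt x _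
    have hsplit : ∀ j : Fin n, (if (j : ℕ) = 0 then w i else
        if (j : ℕ) = 1 ∧ (i : ℕ) = 1 then (1:ℝ) else 0) * x j =
        (if j = ⟨0, by omega⟩ then w i * x j else 0) +
        (if j = ⟨1, by omega⟩ then (if (i : ℕ) = 1 then x j else 0) else 0) := by
      intro j
      by_cases h0 : (j : ℕ) = 0
      · have hj : j = ⟨0, by omega⟩ := Fin.ext h0
        have hj1 : ¬ j = ⟨1, by omega⟩ := by
          intro h; rw [h] at h0; simp at h0
        rw [if_pos h0, if_pos hj, if_neg hj1, add_zero]
      · have hj : ¬ j = ⟨0, by omega⟩ := fun h => h0 (by rw [h])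
        rw [if_neg h0, if_neg hj, zero_add]
        by_cases h1 : (j : ℕ) = 1
        · have hj1 : j = ⟨1, by omega⟩ := Fin.ext h1
          rw [if_pos hj1]
          by_cases hi : (i : ℕ) = 1
          · rw [if_pos ⟨h1, hi⟩, if_pos hi, one_mul]
          · rw [if_neg (fun h => hi h.2), if_neg hi, zero_mul]
        · have hj1 : ¬ j = ⟨1, by omega⟩ := fun h => h1 (by rw [h])
          rw [if_neg hj1, if_neg (fun h => h1 h.1), zero_mul]
    rw [Finset.sum_congr rfl (fun j _ => hsplit j), Finset.sum_add_distrib,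
      Finset.sum_ite_eq', Finset.sum_ite_eq']
    simp only [Finset.mem_univ, if_true]
    rw [e0, e1]
  have hxt : ∀ k, k < n → xt (A.mulVec x + 0) k = w k * xt x 0 + (if k = 1 then xt x 1 else 0) := by
    intro k hk
    have := hAx ⟨k, hk⟩
    have e : xt (A.mulVec x + 0) k = (A.mulVec x + 0) ⟨k, hk⟩ := by simp [xt, hk]
    rw [e, this]
  have h0 : xt (A.mulVec x + 0) 0 = xt x 0 := by
    rw [hxt 0 (by omega)]; simp [hw]
  have h1 : xt (A.mulVec x + 0) 1 = xt x 1 := by
    rw [hxt 1 (by omega)]; simp [hw]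
  rw [h0, h1]
  have hz : ∀ c ∈ S, qval (varsOf S) (xt (A.mulVec x + 0)) c = 0 := by
    apply qval_of_sat hv (xt x 0) _ h0
    intro i hi
    have hlt := List.idxOf_lt_length_iff.2 hi
    have h2 : rn (varsOf S) i < n := by unfold rn; rw [hn]; unfold affN; omega
    rw [hxt _ h2]
    have h3 : w (rn (varsOf S) i) = v i := by
      simp only [hw, rn]
      rw [if_neg (by omega), if_neg (by omega), Nat.add_sub_cancel]
      congr 1
      rw [List.getD_eq_getElem?_getD, List.getElem?_eq_getElem hlt]
      simp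
    rw [h3, if_neg (by unfold rn; omega)]
    ring
  have hs : (S.map fun c => (qval (varsOf S) (xt (A.mulVec x + 0)) c) ^ 2).sum = 0 := by
    apply List.sum_eq_zero
    intro r hr
    rw [List.mem_map] at hr
    obtain ⟨c, hc, rfl⟩ := hr
    rw [hz c hc]; norm_num
  rw [hs, sub_zero]

theorem sat_of_proj {S : List Con} (h : ProjectionWith Q (affInst S)) : Sat S := by
  obtain ⟨_, _, A, b, _, hAb⟩ := h
  exact sat_of_aff' A b hAb

theorem rank_le_two {n : ℕ} (A : Matrix (Fin n) (Fin n) ℝ)
    (h : ∀ i j : Fin n, 2 ≤ (j : ℕ) → A i j = 0) : A.rank ≤ 2 := by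
  classical
  rw [Matrix.rank_eq_finrank_span_cols]
  have h1 : Submodule.span ℝ (Set.range A.col) ≤
      Submodule.span ℝ (((Finset.univ.filter fun j : Fin n => (j : ℕ) < 2).image A.col : Finset _) :
        Set (Fin n → ℝ)) := by
    rw [Submodule.span_le]
    rintro _ ⟨j, rfl⟩
    by_cases hj : (j : ℕ) < 2
    · apply Submodule.subset_span
      simp only [Finset.coe_image, Finset.coe_filter, Finset.mem_univ, true_and]
      exact ⟨j, hj, rfl⟩
    · have : A.col j = 0 := by
        funext i
        exact h i j (by omega)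
      rw [this]
      exact Submodule.zero_mem _
  refine (Submodule.finrank_mono h1).trans ?_
  refine (finrank_span_finset_le_card _).trans ?_
  refine Finset.card_image_le.trans ?_
  have : (Finset.univ.filter fun j : Fin n => (j : ℕ) < 2).card ≤ (Finset.range 2).card := by
    refine Finset.card_le_card_of_injOn (fun j => (j : ℕ)) (fun j hj => ?_) ?_
    · simp only [Finset.coe_filter, Set.mem_setOf_eq, Finset.mem_univ, true_and] at hj
      simpa using hj
    · intro a _ b _ hab
      exact Fin.ext hab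
  simpa using this

/-- **Affine polynomial projection is `∃ℝ`-hard, and so are all its variants.**
(1) The affine polynomial projection problem (given `f, g ∈ ℤ[x₁, …, xₙ]` by their coefficients, are
there `A ∈ ℝ^(n × n)` and `b ∈ ℝⁿ` with `f(x) = g(A x + b)` for all `x`?) is `∃ℝ`-hard under
polynomial-time many-one reductions.
(2) It stays `∃ℝ`-hard for every side condition on `(A, b)` which allows the matrices with nonzero
entries in the first two columns only, together with `b = 0`, and for instances with `f = x₁² x₂²`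
and `g` homogeneous of degree four.
(3) In particular it is `∃ℝ`-hard, on these instances, to decide if there are such `A` and `b` with
`A` of rank at most `r`, for each `r ≥ 2`, and also if moreover `b = 0` is required. -/
theorem result :
    ERHard (lang AffineProjection) ∧
    (∀ Q : ∀ n : ℕ, Matrix (Fin n) (Fin n) ℝ → (Fin n → ℝ) → Prop, AllowsTwoColumns Q →
      ERHardWithin QuarticInstance (ProjectionWith Q)) ∧
    (∀ r : ℕ, 2 ≤ r →
      ERHardWithin QuarticInstance (ProjectionWith fun _ A _ => A.rank ≤ r) ∧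
      ERHardWithin QuarticInstance (ProjectionWith fun _ A b => A.rank ≤ r ∧ b = 0)) := by
  have main : ∀ Q : ∀ n : ℕ, Matrix (Fin n) (Fin n) ℝ → (Fin n → ℝ) → Prop, AllowsTwoColumns Q →
      ERHardWithin QuarticInstance (ProjectionWith Q) := fun Q hQ =>
    ERHardWithin.of_sys (poly_affInst Poly.id) affInst_quartic
      (fun S => ⟨proj_of_sat hQ, sat_of_proj⟩)
  refine ⟨affine_hard.toERHard, main, fun r hr => ⟨main _ ?_, main _ ?_⟩⟩
  · intro n A hA
    exact (rank_le_two A hA).trans hr
  · intro n A hA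
    exact ⟨(rank_le_two A hA).trans hr, rfl⟩

end Pool.Agent.Results.MP_ca1301_lc.AllProjectionVariants
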